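import Pool.Agent.H57.AR.Targets

/-!
# All reducts: row PRD (products of signs)
-/

set_option autoImplicit false

namespace Pool.Agent.H24.AR

open Pool.Agent.H57.AR
open Pool.Agent.H68.BP Pool.Agent.H58.SF Pool.Agent.H53.GC Pool.Agent.H53.NR Pool.Agent.H53.GR
open Function

/-- products of signs, for the index type `Fin n` -/
def pnF {Y : Type} : (n m : ℕ) → (Fin n → Sgn Y m) → ((Fin n → Od m) → Y) → Y
  | 0, _, _, φ => φ (fun i => i.elim0)
  | n + 1, m, E, φ =>
      E 0 (fun o => pnF n m (fun i => E i.succ) (fun J => φ (Fin.cons o J)))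

theorem pnF_nat {Y : Type} : ∀ (r m n : ℕ) (α : Fin n → Fin m) (E : Fin r → Sgn Y m)
    (φ : (Fin r → Od n) → Y),
    pnF r n (fun i => rsS α (E i)) φ = pnF r m E (fun J => φ (fun i => rsO α (J i))) := by
  intro r
  induction r with
  | zero =>
    intro m n α E φ
    simp only [pnF]
    exact congrArg φ (funext fun i => i.elim0)
  | succ r ih =>
    intro m n α E φ
    simp only [pnF]
    unfold rsS
    refine congrArg (E 0) (funext fun o => ?_)
    have h := ih m n α (fun i => E i.succ) (fun J => φ (Fin.cons (rsO α o) J))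
    refine Eq.trans h ?_
    refine congrArg (pnF r m fun i => E i.succ) (funext fun J => ?_)
    refine congrArg φ (funext fun i => ?_)
    refine Fin.cases ?_ (fun j => ?_) i
    · rfl
    · rfl

theorem pnF_sup {Y : Type} : ∀ (r m : ℕ) (k : Fin r → Fin m → ℕ) (E : Fin r → Sgn Y m),
    (∀ i, Sup (k i) (E i)) → ∀ φ φ' : (Fin r → Od m) → Y,
      (∀ J, (∀ i, LinO (k i) (J i)) → φ J = φ' J) → pnF r m E φ = pnF r m E φ' := by
  intro r
  induction r with
  | zero =>
    intro m k E _ φ φ' h
    simp only [pnF]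
    exact h _ (fun i => i.elim0)
  | succ r ih =>
    intro m k E hE φ φ' h
    simp only [pnF]
    refine hE 0 _ _ (fun o ho => ?_)
    refine ih m (fun i => k i.succ) (fun i => E i.succ) (fun i => hE i.succ) _ _ (fun J hJ => ?_)
    refine h _ (fun i => ?_)
    refine Fin.cases ?_ (fun j => ?_) i
    · exact ho
    · exact hJ j

theorem pnF_poly {Y : Type} {σ : Sig} (𝕋 : Str σ Y) : ∀ (r m : ℕ) (E : Fin r → Sgn Y m),
    (∀ i, IsPoly 𝕋 𝕋 (E i)) → IsPoly 𝕋 𝕋 (pnF r m E) := by
  intro r
  induction r with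
  | zero =>
    intro m E _ l x hx
    simp only [pnF]
    exact hx _
  | succ r ih =>
    intro m E hE l x hx
    simp only [pnF]
    refine hE 0 l (fun o a => pnF r m (fun i => E i.succ) (fun J => x (Fin.cons o J) a))
      (fun o => ?_)
    exact ih m (fun i => E i.succ) (fun i => hE i.succ) l (fun J => x (Fin.cons o J))
      (fun J => hx _)

theorem pf_PRD : T_PRD := by
  intro I _ Y
  obtain ⟨r, ⟨e⟩⟩ := Finite.exists_equiv_fin I
  refine ⟨fun m E φ => pnF r m (fun i => E (e.symm i)) (fun J => φ (fun i => J (e i))),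
    ?_, ?_, ?_⟩
  · intro m n α E φ
    exact pnF_nat r m n α (fun i => E (e.symm i)) (fun J => φ (fun i => J (e i)))
  · intro m k E hE φ φ' h
    refine pnF_sup r m (fun i => k (e.symm i)) _ (fun i => hE _) _ _ (fun J hJ => ?_)
    refine h _ (fun i => ?_)
    have h1 := hJ (e i)
    rw [Equiv.symm_apply_apply] at h1
    exact h1
  · intro σ 𝕋 m E hE l x hx
    exact pnF_poly 𝕋 r m (fun i => E (e.symm i)) (fun i => hE _) l
      (fun J => x (fun i => J (e i))) (fun J => hx _)

end Pool.Agent.H24.AR
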